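import Pool.Agent.K9h11.JN.U

/-!
# Equivalent forms of the non-symmetric `L^p`-Mahler inequality

For a convex body `K ⊂ ℝⁿ` (in any position) let `χ_K(y, τ) = ∫_C e^(⟨x, y⟩ - τ s) dx ds` be the
characteristic function of the cone `C = {(r x, r) : x ∈ K, r > 0}` and

  `V_p(K) = χ_K(0, 1)^(1+1/p) ∫∫ e^(-(n+1) τ) χ_K(y, τ)^(-1/p) dy dτ`,   `χ_K(0, 1) = n! |K|`.

For each `c > 0` the following inequalities are equivalent, and none of them holds if `c > 1`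
(`r(p) = e^(1+1/p) p^(1/p) Γ(1+1/p)` is the rate of the simplices):

* `M_p(K) ≥ ((1 - δ) c)^n inf_x M_p(Δ_n - x)` for `0 < δ < 1`, `n ≥ n₀(δ)` and all bodies `K ⊂ ℝⁿ`;
* `M_p(K) ≥ c^(n+1) A_n(p)` for all `n ≥ 1` and all bodies,
  `A_n(p) = ((n+1)^(n+1)/n!) Γ(1+1/p)^(n+1) (n+1)^((n+1)/p) / Γ(1+(n+1)/p)`;
* `V_p(K) ≥ (c Γ(1+1/p))^(n+1)` for all `n ≥ 1` and all bodies;
* `(∫ g)^(1+1/p) ∫ (∫ g(x)^(1+p) e^(p⟨x,y⟩) dx)^(-1/p) dy ≥ (c r(p))^n` for all `n ≥ 1` and all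
  integrable log-concave functions `g` on `ℝⁿ` that are positive near the origin.

For `c = 1` the first of these is Q1 up to a factor `(1 - δ)^n`.

Outline.  `V_p` is multiplicative under joins (the convex hull of bodies in skew subspaces): `χ` of a
join is the product of the characteristic functions of the factors after a linear change of the
variables of determinant one.  It agrees with `M_p` up to the factor `(e^(1+1/p) p^(1/p))^(n+1)` and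
polynomial factors: one integrates over the lines `y = const`; the logarithm of
`∫_K e^⟨x,t y⟩ dx` is convex in `t`, the logarithm of `tⁿ ∫_K e^⟨x,t y⟩ dx` is concave, and with the
tangents at `t = (n+1) p` both integrals are elementary.  For the functional form, the inequality for
`V_p` is applied to the bodies `{(x, t) : t ≥ 0, x ∈ t K^m, t (τ₀ + σ ∑ φ(x_i / t)) ≤ 1}`, shifted by
`1/(mn+2)` in the last coordinate, where `g^(1+p) = e^(-φ)` on `K`; `σ` and `τ₀` are determined by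
the logarithmic derivatives of `sⁿ ∫_K e^(-sφ)` and of `∫ (∫_K e^(p⟨x,y⟩-pγφ) dx)^(-1/p) dy`, which
are log-concave, at `s = 1/(1+p)` and `γ = 1/p`, and `m → ∞`.
-/

set_option autoImplicit false

noncomputable section

open MeasureTheory Set Filter
open scoped ENNReal Topology

namespace Pool.Agent.Results.MP_5f4cdd_gt.JoinsAndEquivalence

/-- convex bodies in `ℝⁿ` (in any position) -/
def Body {n : ℕ} (K : Set (Fin n → ℝ)) : Prop := Convex ℝ K ∧ IsCompact K ∧ (interior K).Nonempty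

/-- The `L^p`-Mahler volume `M_p(K) = vol(K) ∫ exp(-h_{p,K}(y)) dy` for `0 < p < ∞`, where
`exp(-h_{p,K}(y)) = ((1/vol K) ∫_K exp(p⟨x,y⟩) dx)^(-1/p)`. -/
def mahlerVolume {n : ℕ} (p : ℝ) (K : Set (Fin n → ℝ)) : ℝ≥0∞ :=
  volume K * ∫⁻ y : Fin n → ℝ, ENNReal.ofReal
    (((∫ x in K, Real.exp (p * ∑ i, x i * y i)) / (volume K).toReal) ^ (-(1 / p)))

/-- the standard simplex `Δ_n` -/
def simplex (n : ℕ) : Set (Fin n → ℝ) := {z | (∀ i, 0 ≤ z i) ∧ ∑ i, z i ≤ 1}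

/-- the infimum of `M_p(Δ_n - x)` over `x ∈ Δ_n` -/
def simplexInf (n : ℕ) (p : ℝ) : ℝ≥0∞ :=
  ⨅ x ∈ simplex n, mahlerVolume p ((fun z : Fin n → ℝ => z - x) '' simplex n)

/-- the Laplace transform `∫_K e^⟨x,z⟩ dx` -/
def laplace {n : ℕ} (K : Set (Fin n → ℝ)) (z : Fin n → ℝ) : ℝ≥0∞ :=
  ∫⁻ x in K, ENNReal.ofReal (Real.exp (∑ i, x i * z i))

/-- the characteristic function `χ_K(y, τ) = ∫_0^∞ rⁿ e^(-rτ) ∫_K e^⟨x, r y⟩ dx dr` of the cone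
`{(r x, r) : x ∈ K, r > 0}` over `K` -/
def coneChar {n : ℕ} (K : Set (Fin n → ℝ)) (y : Fin n → ℝ) (τ : ℝ) : ℝ≥0∞ :=
  ∫⁻ r in Ioi (0:ℝ), ENNReal.ofReal (r ^ n * Real.exp (-(r * τ))) * laplace K (r • y)

/-- `V_p(K) = χ_K(0, 1)^(1+1/p) ∫∫ e^(-(n+1) τ) χ_K(y, τ)^(-1/p) dτ dy` -/
def coneVolume {n : ℕ} (p : ℝ) (K : Set (Fin n → ℝ)) : ℝ≥0∞ :=
  coneChar K 0 1 ^ (1 + 1 / p) * ∫⁻ y : Fin n → ℝ, ∫⁻ τ : ℝ,
    ENNReal.ofReal (Real.exp (-(((n:ℝ) + 1) * τ))) * coneChar K y τ ^ (-(1 / p))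

/-- `A_n(p) = ((n+1)^(n+1)/n!) Γ(1+1/p)^(n+1) (n+1)^((n+1)/p) / Γ(1+(n+1)/p)` -/
def const (n : ℕ) (p : ℝ) : ℝ :=
  ((n:ℝ) + 1) ^ (n + 1) / n.factorial * Real.Gamma (1 + 1 / p) ^ (n + 1) *
    ((n:ℝ) + 1) ^ (((n:ℝ) + 1) / p) / Real.Gamma (1 + ((n:ℝ) + 1) / p)

/-- the rate `r(p) = e^(1+1/p) p^(1/p) Γ(1+1/p)` of `inf_x M_p(Δ_n - x)` (starting result
`Cones`) -/
def rate (p : ℝ) : ℝ := Real.exp (1 + 1 / p) * p ^ (1 / p) * Real.Gamma (1 + 1 / p)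

/-- log-concave functions -/
def LogConcave {n : ℕ} (g : (Fin n → ℝ) → ℝ) : Prop :=
  (∀ x, 0 ≤ g x) ∧ ∀ (x y : Fin n → ℝ) (s : ℝ), 0 < s → s < 1 →
    g x ^ s * g y ^ (1 - s) ≤ g (s • x + (1 - s) • y)

/-- the functional `L^p`-Mahler volume
`(∫ g)^(1+1/p) ∫ (∫ g(x)^(1+p) e^(p⟨x,y⟩) dx)^(-1/p) dy`; for the indicator function of `K` it is
`M_p(K)` -/
def functional {n : ℕ} (p : ℝ) (g : (Fin n → ℝ) → ℝ) : ℝ≥0∞ :=
  (∫⁻ x, ENNReal.ofReal (g x)) ^ (1 + 1 / p) *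
    ∫⁻ y : Fin n → ℝ, (∫⁻ x, ENNReal.ofReal
      (g x ^ (1 + p) * Real.exp (p * ∑ i, x i * y i))) ^ (-(1 / p))

/-- `M_p(K) ≥ ((1 - δ) c)^n inf_x M_p(Δ_n - x)` for `0 < δ < 1`, all `n ≥ n₀(δ)` and all bodies
`K ⊂ ℝⁿ`; for `c = 1` this is Q1 up to a factor `(1 - δ)^n` -/
def Asymptotic (p c : ℝ) : Prop := ∀ δ : ℝ, 0 < δ → δ < 1 → ∃ n₀ : ℕ, ∀ n : ℕ, n₀ ≤ n →
  ∀ K : Set (Fin n → ℝ), Body K →
    ENNReal.ofReal (((1 - δ) * c) ^ n) * simplexInf n p ≤ mahlerVolume p K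

/-- `M_p(K) ≥ c^(n+1) A_n(p)` for all bodies in all dimensions -/
def AllDimensions (p c : ℝ) : Prop := ∀ n : ℕ, 1 ≤ n → ∀ K : Set (Fin n → ℝ), Body K →
  ENNReal.ofReal (c ^ (n + 1) * const n p) ≤ mahlerVolume p K

/-- `V_p(K) ≥ (c Γ(1+1/p))^(n+1)` for all bodies in all dimensions -/
def ConeForm (p c : ℝ) : Prop := ∀ n : ℕ, 1 ≤ n → ∀ K : Set (Fin n → ℝ), Body K →
  ENNReal.ofReal ((c * Real.Gamma (1 + 1 / p)) ^ (n + 1)) ≤ coneVolume p K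

/-- the functional form -/
def FunctionalForm (p c : ℝ) : Prop := ∀ n : ℕ, 1 ≤ n → ∀ g : (Fin n → ℝ) → ℝ, LogConcave g →
  Integrable g → (0 : Fin n → ℝ) ∈ interior {x | 0 < g x} →
    ENNReal.ofReal ((c * rate p) ^ n) ≤ functional p g

open Pool.Agent.K9h11.JN

lemma bdy {n : ℕ} {K : Set (Fin n → ℝ)} (h : Body K) : Bdy K := ⟨h.2.1, h.1, h.2.2⟩

lemma body {n : ℕ} {K : Set (Fin n → ℝ)} (h : Bdy K) : Body K := ⟨h.conv, h.comp, h.int⟩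

lemma asym_iff (p c : ℝ) : Asymptotic p c ↔ HU p c := by
  constructor
  · intro h δ h0 h1
    obtain ⟨n₀, hn⟩ := h δ h0 h1
    exact ⟨n₀, fun n hn' K hK => hn n hn' K (body hK)⟩
  · intro h δ h0 h1
    obtain ⟨n₀, hn⟩ := h δ h0 h1
    exact ⟨n₀, fun n hn' K hK => hn n hn' K (bdy hK)⟩

lemma all_iff (p c : ℝ) : AllDimensions p c ↔ HB p c :=
  ⟨fun h n hn K hK => h n hn K (body hK), fun h n hn K hK => h n hn K (bdy hK)⟩

lemma cone_iff (p c : ℝ) : ConeForm p c ↔ HV p c :=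
  ⟨fun h n hn K hK => h n hn K (body hK), fun h n hn K hK => h n hn K (bdy hK)⟩

lemma fun_iff (p c : ℝ) : FunctionalForm p c ↔ HF p c :=
  ⟨fun h n hn g hg => h n hn g ⟨hg.nonneg, hg.lc⟩, fun h n hn g hg => h n hn g ⟨hg.1, hg.2⟩⟩

/-- **Equivalent forms of the non-symmetric `L^p`-Mahler inequality.**  For every `p > 0` and every
`c > 0` the four forms are equivalent; they fail for `c > 1`. -/
theorem result (p : ℝ) (hp : 0 < p) (c : ℝ) (hc : 0 < c) :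
    [Asymptotic p c, AllDimensions p c, ConeForm p c, FunctionalForm p c].TFAE ∧
      (1 < c → ¬ Asymptotic p c) := by
  refine ⟨?_, fun h1 => ?_⟩
  · have h := tfae hp hc
    rw [asym_iff, HU_HA hp hc, all_iff, cone_iff, fun_iff]
    exact h
  · rw [asym_iff]
    exact HU_gt hp h1

end Pool.Agent.Results.MP_5f4cdd_gt.JoinsAndEquivalence

end
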