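import Pool.Agent.K9h70.PZ.Fin1

/-!
# Polars of zonoids and the non-symmetric `L^p`-Mahler inequality, uniformly in `p`

Let `V` be the polar `(Z - b)°` of a translate of a zonoid `Z` (a body which is in general not
symmetric), or any translate of the unit ball of an `n`-dimensional subspace of a space `L_1(μ)`.

1. In all dimensions, for all `p > 0`, and for all bodies `K ⊆ V`, in every position, with
   `|V| ≤ s^n |K|`: `M_p(K) ≥ (n^n / (e^n n!)) (s^(-(1+1/p)) (π/√(2e)) r(p))^n`, where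
   `r(p) = e^(1+1/p) p^(1/p) Γ(1+1/p)` is the rate of the conjectured minimum; `π/√(2e) > 1.34`.
2. Hence, if `s^(1+1/p) < π/√(2e)`, Q1 holds with an exponential gain in high dimensions for all
   bodies with a section or a projection of this kind of small codimension.
3. For the bodies `V` themselves Q1 holds with an exponential gain for all `p ∈ (0, ∞)` in all
   dimensions `n ≥ n₀`, where neither `n₀` nor the gain depends on `p`.

Outline.  1: let
`R_p(K) = ((1+p)^(1+1/p) / p)^n (n! |K|)^(1+1/p) ∫ (∫ e^(-|x|_K + ⟨x,w⟩) dx)^(-1/p) dw`.  For every body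
`K` and every `p > 0`, `M_p(K) ≥ (n^n / (e^n n!)) R_p(K)`: for fixed `y` one compares
`∫ e^(-s) s^n e^(s u / a) ds` with an exponential function of `u = ⟨x,y⟩`, `a = n + 1 + n p`, by
`e^x ≥ 1 + x`, and Bernoulli's inequality makes the constant independent of `p`.  `R_p` does not
increase if the polar of a translate `Z - b`, or a translate of a symmetric body, is centred; for
centred bodies the library has `R_p ≥ (π/(2√e) c(p))^n` with the rate `c(p)` of the cross-polytopes,
and `c(p) ≥ √2 r(p)` by a monotonicity argument with the Gamma function.  3: for `p ≤ 3` the simplex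
is compared with the cube through the cone construction, with explicit constants; for `p ≥ 2` a
compactness argument in `p` is used.
-/

set_option autoImplicit false

noncomputable section

open MeasureTheory
open scoped ENNReal Pointwise

namespace Pool.Agent.Results.MP_5f4cdd_gt.PolarsOfZonoids

/-- convex bodies in `ℝⁿ` (in any position) -/
def Body {n : ℕ} (K : Set (Fin n → ℝ)) : Prop := Convex ℝ K ∧ IsCompact K ∧ (interior K).Nonempty

/-- The `L^p`-Mahler volume `M_p(K) = vol(K) ∫ exp(-h_{p,K}(y)) dy` for `0 < p < ∞`, where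
`exp(-h_{p,K}(y)) = ((1/vol K) ∫_K exp(p⟨x,y⟩) dx)^(-1/p)`. -/
def mahlerVolume {n : ℕ} (p : ℝ) (K : Set (Fin n → ℝ)) : ℝ≥0∞ :=
  volume K * ∫⁻ y : Fin n → ℝ, ENNReal.ofReal
    (((∫ x in K, Real.exp (p * ∑ i, x i * y i)) / (volume K).toReal) ^ (-(1 / p)))

/-- the standard simplex `Δ_n` -/
def simplex (n : ℕ) : Set (Fin n → ℝ) := {z | (∀ i, 0 ≤ z i) ∧ ∑ i, z i ≤ 1}

/-- the infimum of `M_p(Δ_n - x)` over `x ∈ Δ_n` -/
def simplexInf (n : ℕ) (p : ℝ) : ℝ≥0∞ :=
  ⨅ x ∈ simplex n, mahlerVolume p ((fun z : Fin n → ℝ => z - x) '' simplex n)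

/-- unit balls of the `n`-dimensional subspaces of the spaces `L_1(μ)`: the unit balls of the spans
of linearly independent `f_1, ..., f_n` in the coordinates of the `f_i` -/
def IsL1Ball {n : ℕ} (K : Set (Fin n → ℝ)) : Prop :=
  ∃ (Ω : Type) (_ : MeasurableSpace Ω) (μ : Measure Ω) (f : Fin n → Lp ℝ 1 μ),
    LinearIndependent ℝ f ∧ K = {x | ‖∑ i, x i • f i‖ ≤ 1}

/-- Polars of translated zonoids: compact sets of the form `{x | ‖∑ x_i f_i‖ ≤ 1 + ⟨x, b⟩}` with
linearly independent elements `f_1, ..., f_n` of a space `L_1(μ)` and `b ∈ ℝ^n`.  (The function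
`x ↦ ‖∑ x_i f_i‖` is the support function of a zonoid `Z` with interior points, and the set is the
polar of `Z - b`.) -/
def IsPolarOfZonoid {n : ℕ} (K : Set (Fin n → ℝ)) : Prop :=
  IsCompact K ∧ ∃ (Ω : Type) (_ : MeasurableSpace Ω) (μ : Measure Ω) (f : Fin n → Lp ℝ 1 μ)
    (b : Fin n → ℝ), LinearIndependent ℝ f ∧ K = {x | ‖∑ i, x i • f i‖ ≤ 1 + ∑ i, x i * b i}

/-- the class of this file: polars of translated zonoids, and translates of the unit balls of
subspaces of `L_1` -/
def Model {n : ℕ} (V : Set (Fin n → ℝ)) : Prop :=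
  IsPolarOfZonoid V ∨ ∃ (U : Set (Fin n → ℝ)) (z : Fin n → ℝ), IsL1Ball U ∧
    V = (fun x : Fin n → ℝ => x - z) '' U

/-- `K` is contained in a body of the class of volume at most `s^n vol(K)` -/
def Comparable {n : ℕ} (s : ℝ) (K : Set (Fin n → ℝ)) : Prop :=
  ∃ V : Set (Fin n → ℝ), Model V ∧ K ⊆ V ∧ volume V ≤ ENNReal.ofReal (s ^ n) * volume K

/-- `L ⊂ ℝ^m` is a section of `K` with a subspace of dimension `m` or a projection of `K` to a
space of dimension `m`, up to a linear isomorphism -/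
def SectionOrProjection {m n : ℕ} (L : Set (Fin m → ℝ)) (K : Set (Fin n → ℝ)) : Prop :=
  (∃ T : (Fin m → ℝ) →ₗ[ℝ] (Fin n → ℝ), Function.Injective T ∧ L = T ⁻¹' K) ∨
    ∃ T : (Fin n → ℝ) →ₗ[ℝ] (Fin m → ℝ), Function.Surjective T ∧ L = T '' K

/-- the rate `r(p) = e^(1+1/p) p^(1/p) Γ(1+1/p)`, the limit of the `n`-th roots of the infima
`inf_x M_p(Δ_n - x)` (starting result `Cones`) -/
def rate (p : ℝ) : ℝ := Real.exp (1 + 1 / p) * p ^ (1 / p) * Real.Gamma (1 + 1 / p)

/-- the gain `π / √(2e) = 1.3474...` -/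
def gain : ℝ := Real.pi / √(2 * Real.exp 1)

open Pool.Agent.K9h70.PZ

lemma model {n : ℕ} {V : Set (Fin n → ℝ)} (h : Model V) : IsPZ V ∨ IsTr V := h

lemma near {n : ℕ} {s : ℝ} {K : Set (Fin n → ℝ)} (h : Comparable s K) : Near s K := h

lemma rr_ge' {p : ℝ} (hp : 0 < p) : gain * rate p ≤ N590.L1.FIN.rr p := rr_ge hp

/-- **The non-symmetric `L^p`-Mahler inequality for polars of zonoids, uniformly in `p`.** -/
theorem result :
    -- 1. all dimensions, all positions, all `p`
    (1.34 < gain ∧ ∀ p : ℝ, 0 < p → ∀ s : ℝ, 0 < s → ∀ n : ℕ, 1 ≤ n →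
      ∀ K : Set (Fin n → ℝ), Body K → Comparable s K →
        ENNReal.ofReal ((n : ℝ) ^ n / (Real.exp n * n.factorial) *
          (s ^ (-(1 + 1 / p)) * (gain * rate p)) ^ n) ≤ mahlerVolume p K) ∧
    -- 2. high dimensions, bodies with a large section or projection of the kind considered
    (∀ p : ℝ, 0 < p → ∀ s : ℝ, 0 < s → s ^ (1 + 1 / p) < gain →
      ∃ ε : ℝ, 0 < ε ∧ ∃ η : ℝ, 0 < η ∧ ∃ n₀ : ℕ, ∀ n m : ℕ, n₀ ≤ n → (1 - ε) * n ≤ m →
        ∀ (K : Set (Fin n → ℝ)) (L : Set (Fin m → ℝ)), Body K → SectionOrProjection L K →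
          Comparable s L → ENNReal.ofReal ((1 + η) ^ n) * simplexInf n p < mahlerVolume p K) ∧
    -- 3. all `p` at once
    (∃ η : ℝ, 0 < η ∧ ∃ n₀ : ℕ, ∀ n : ℕ, n₀ ≤ n → ∀ p : ℝ, 0 < p → ∀ V : Set (Fin n → ℝ),
      Model V → ENNReal.ofReal ((1 + η) ^ n) * simplexInf n p < mahlerVolume p V) := by
  refine ⟨⟨gain_gt, fun p hp s hs n hn K hK hC => ?_⟩, fun p hp s hs h => ?_, ?_⟩
  · by_cases h0 : (0 : Fin n → ℝ) ∈ interior K
    · have hN : H801NS.NB K := ⟨hK.2.1, hK.1, h0⟩
      refine le_trans (ENNReal.ofReal_le_ofReal ?_) (near_ge hn hp hs hN (near hC))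
      have hc := cn_pos hn
      have hr := rr_ge' hp
      have hg : 0 < gain * rate p := by
        have := Pool.Agent.TH649.LP.eps_pos hp
        have h2 : (0:ℝ) < gain := by unfold gain; positivity
        exact mul_pos h2 this
      rw [mul_pow]
      have h3 : (gain * rate p) ^ n ≤ N590.L1.FIN.rr p ^ n := by gcongr
      exact mul_le_mul_of_nonneg_left (mul_le_mul_of_nonneg_left h3 (by positivity)) hc.le
    · have h1 := Pool.Agent.H131R5.LM.Mp_top hK.1 hK.2.1 hK.2.2 h0 hp
      exact le_of_le_of_eq le_top h1.symm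
  · obtain ⟨ε, hε, η, hη, n0, h1⟩ := near_strict hp hs h
    exact ⟨ε, hε, η, hη, n0, fun n m hn hm K L hK hL hC => h1 n m hn hm K L hK hL (near hC)⟩
  · obtain ⟨η, hη, n0, h1⟩ := unif_all
    exact ⟨η, hη, n0, fun n hn p hp V hV => h1 n hn p hp V (model hV)⟩

end Pool.Agent.Results.MP_5f4cdd_gt.PolarsOfZonoids

end
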