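import Pool.Agent.K9h11.RP.Main

/-!
# Bodies with a round section or projection and the `L^p`-Mahler inequality

For every `p > 0`, in high dimensions and with an exponential gain, the inequality of Q1 holds for
all convex bodies `K ⊂ ℝⁿ`, in every position, which have a linear section or a projection `L` of
dimension `m ≥ (1-ε) n` (in particular `L = K`) inside an ellipsoid of volume at most `(3/2)^m |L|`.
The number `3/2` does not depend on `p`; it can be replaced with every `θ < b(p) / r(p)`, where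
`b(p) = 2π (1+p)^((1+p)/(2p)) / √p` and `r(p) = e^(1+1/p) p^(1/p) Γ(1+1/p)` are the rates of the
Euclidean balls and of the simplices.

Outline.  Hölder's inequality with a Gaussian weight whose centre depends on the position of `K`
gives the bound `M_p(K) ≥ e⁻¹ (1+n/2)⁻¹ (|K|/|E|) b(p)^n` for all bodies `K ⊆ E` and all positions.
The conjectured minimum grows like `r(p)^n`, and a monotonicity argument with Stirling's formula
gives `b(p) ≥ √(2π/e) r(p)` for every `p`.  The inequality `M_p(S) M_p(P) ≤ C(n,m)^(1+1/p) M_p(K)`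
for sections and projections does the rest.
-/

set_option autoImplicit false

noncomputable section

open MeasureTheory Set Filter
open scoped ENNReal Pointwise

namespace Pool.Agent.Results.MP_5f4cdd_gt.RoundProjections

/-- convex bodies in `ℝⁿ` (in any position) -/
def Body {n : ℕ} (K : Set (Fin n → ℝ)) : Prop := Convex ℝ K ∧ IsCompact K ∧ (interior K).Nonempty

/-- The `L^p`-Mahler volume `M_p(K) = vol(K) ∫ exp(-h_{p,K}(y)) dy` for `0 < p < ∞`, where
`exp(-h_{p,K}(y)) = ((1/vol K) ∫_K exp(p⟨x,y⟩) dx)^(-1/p)`. -/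
def mahlerVolume {n : ℕ} (p : ℝ) (K : Set (Fin n → ℝ)) : ℝ≥0∞ :=
  volume K * ∫⁻ y : Fin n → ℝ, ENNReal.ofReal
    (((∫ x in K, Real.exp (p * ∑ i, x i * y i)) / (volume K).toReal) ^ (-(1 / p)))

/-- the standard simplex `Δ_n` -/
def simplex (n : ℕ) : Set (Fin n → ℝ) := {z | (∀ i, 0 ≤ z i) ∧ ∑ i, z i ≤ 1}

/-- the infimum of `M_p(Δ_n - x)` over `x ∈ Δ_n` -/
def simplexInf (n : ℕ) (p : ℝ) : ℝ≥0∞ :=
  ⨅ x ∈ simplex n, mahlerVolume p ((fun z : Fin n → ℝ => z - x) '' simplex n)

/-- the rate `r(p) = e^(1+1/p) p^(1/p) Γ(1+1/p)`; by the result `Cones` it is the limit of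
`(inf_x M_p(Δ_n - x))^(1/n)` -/
def rate (p : ℝ) : ℝ := Real.exp (1 + 1 / p) * p ^ (1 / p) * Real.Gamma (1 + 1 / p)

/-- the rate `b(p) = 2π (1+p)^((1+p)/(2p)) / √p` of the Euclidean balls -/
def ballRate (p : ℝ) : ℝ := 2 * Real.pi * (1 + p) ^ ((1 + p) / (2 * p)) / √p

/-- ellipsoids: the images of the Euclidean unit ball under the invertible affine maps -/
def Ellipsoid {n : ℕ} (E : Set (Fin n → ℝ)) : Prop :=
  ∃ (A : (Fin n → ℝ) ≃ₗ[ℝ] (Fin n → ℝ)) (v : Fin n → ℝ),
    E = (fun u => A u + v) '' {u | ∑ i, u i ^ 2 ≤ 1}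

/-- `L ⊂ ℝ^m` is the section of `K` with a linear subspace of dimension `m` or a projection of `K`
to a space of dimension `m`, up to a linear isomorphism -/
def SectionOrProjection {m n : ℕ} (L : Set (Fin m → ℝ)) (K : Set (Fin n → ℝ)) : Prop :=
  (∃ T : (Fin m → ℝ) →ₗ[ℝ] (Fin n → ℝ), Function.Injective T ∧ L = T ⁻¹' K) ∨
    ∃ T : (Fin n → ℝ) →ₗ[ℝ] (Fin m → ℝ), Function.Surjective T ∧ L = T '' K

/-- **Bodies with a round section or projection.**  The number `θ = 3/2` is admissible for every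
`p`. -/
theorem result (p : ℝ) (hp : 0 < p) :
    3 / 2 * rate p < ballRate p ∧
    ∀ θ : ℝ, 0 < θ → θ * rate p < ballRate p → ∃ ε : ℝ, 0 < ε ∧ ∃ η : ℝ, 0 < η ∧ ∃ n₀ : ℕ,
      ∀ n m : ℕ, n₀ ≤ n → (1 - ε) * n ≤ m → ∀ (K : Set (Fin n → ℝ)) (L E : Set (Fin m → ℝ)),
      Body K → SectionOrProjection L K → Ellipsoid E → L ⊆ E →
      volume E ≤ ENNReal.ofReal (θ ^ m) * volume L →
        ENNReal.ofReal ((1 + η) ^ n) * simplexInf n p < mahlerVolume p K :=
  ⟨Pool.Agent.K9h11.RP.rates' hp, fun _ hθ h => Pool.Agent.K9h11.RP.round hp hθ h⟩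

end Pool.Agent.Results.MP_5f4cdd_gt.RoundProjections
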