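import Pool.Agent.K9h11.JN.U

/-!
# The non-symmetric `L^p`-Mahler inequality and the volume ratio

For a convex body `K` of `ℝⁿ` let `vr(K)` be the least quotient `|K| / |E|` over all ellipsoids
`E ⊆ K`.  For every `p > 0` and every convex body `K`, in every position,

  `M_p(K) ≥ (vr(K) / vr(Δ_n))^(1 + 1/p) A_n(p)`,

  `A_n(p) = ((n+1)^(n+1)/n!) Γ(1+1/p)^(n+1) (n+1)^((n+1)/p) / Γ(1+(n+1)/p)`.

The quotient `vr(K) / vr(Δ_n)` is at most one (Ball), and `A_n(p)` is `inf_x M_p(Δ_n - x)` up to a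
factor `(1-δ)^n`.  Hence the inequality of Q1 holds up to `(1-δ)^n` for all bodies whose volume ratio
is not exponentially smaller than that of the simplex.

Outline.  Let `∑ c_i u_i ⊗ u_i = I`, `∑ c_i u_i = 0` be John's decomposition, lifted to `ℝ^(n+1)`.
The Brascamp-Lieb inequality for exponential functions on the cone over `K` and the elementary
inequality `e^(-t) ≤ (N/(e t))^N`, `N = n + 1`, give
`∫_K e^⟨x,η⟩ dx ≤ C e^(√n ρ) ∏ α_i^(-d_i)` if `∑ d_i α_i v_i = (-η, ρ)`.  The reverse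
Brascamp-Lieb inequality bounds the integral of `∏ (α_i^q e^(-q λ_i α_i))^(d_i)` over `ℝ^(n+1)` from
below, `q = 1/p`; on each line `η = const` the supremum of the geometric mean of the `α_i` is
concave, and it is compared with a tangent line of the exponential function (separation of convex
sets), which makes the integral over the line explicit.  The position costs nothing because of the
arithmetic-geometric mean inequality for the `λ_i`.
-/

set_option autoImplicit false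

noncomputable section

open MeasureTheory Set Filter
open scoped ENNReal Topology

namespace Pool.Agent.Results.MP_5f4cdd_gt.VolumeRatio

/-- convex bodies in `ℝⁿ` (in any position) -/
def Body {n : ℕ} (K : Set (Fin n → ℝ)) : Prop := Convex ℝ K ∧ IsCompact K ∧ (interior K).Nonempty

/-- The `L^p`-Mahler volume `M_p(K) = vol(K) ∫ exp(-h_{p,K}(y)) dy` for `0 < p < ∞`, where
`exp(-h_{p,K}(y)) = ((1/vol K) ∫_K exp(p⟨x,y⟩) dx)^(-1/p)`. -/
def mahlerVolume {n : ℕ} (p : ℝ) (K : Set (Fin n → ℝ)) : ℝ≥0∞ :=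
  volume K * ∫⁻ y : Fin n → ℝ, ENNReal.ofReal
    (((∫ x in K, Real.exp (p * ∑ i, x i * y i)) / (volume K).toReal) ^ (-(1 / p)))

/-- the standard simplex `Δ_n` -/
def simplex (n : ℕ) : Set (Fin n → ℝ) := {z | (∀ i, 0 ≤ z i) ∧ ∑ i, z i ≤ 1}

/-- the infimum of `M_p(Δ_n - x)` over `x ∈ Δ_n` -/
def simplexInf (n : ℕ) (p : ℝ) : ℝ≥0∞ :=
  ⨅ x ∈ simplex n, mahlerVolume p ((fun z : Fin n → ℝ => z - x) '' simplex n)

/-- the Euclidean unit ball -/
def unitBall (n : ℕ) : Set (Fin n → ℝ) := {x | ∑ i, x i ^ 2 ≤ 1}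

/-- the least quotient `|K| / |E|` over all ellipsoids `E ⊆ K` (the `n`-th power of the volume
ratio); ellipsoids are the images of the Euclidean unit ball under affine maps -/
def volRatio {n : ℕ} (K : Set (Fin n → ℝ)) : ℝ≥0∞ :=
  ⨅ (T : (Fin n → ℝ) →ₗ[ℝ] (Fin n → ℝ)) (b : Fin n → ℝ)
    (_ : (fun x => b + T x) '' unitBall n ⊆ K),
    volume K / volume ((fun x => b + T x) '' unitBall n)

/-- `A_n(p) = ((n+1)^(n+1)/n!) Γ(1+1/p)^(n+1) (n+1)^((n+1)/p) / Γ(1+(n+1)/p)` -/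
def const (n : ℕ) (p : ℝ) : ℝ :=
  ((n:ℝ) + 1) ^ (n + 1) / n.factorial * Real.Gamma (1 + 1 / p) ^ (n + 1) *
    ((n:ℝ) + 1) ^ (((n:ℝ) + 1) / p) / Real.Gamma (1 + ((n:ℝ) + 1) / p)

/-- **The `L^p`-Mahler volume and the volume ratio of a convex body.**  The bound holds for all
bodies in all positions; its constant `A_n(p)` is the infimum for the simplex up to `(1-δ)^n`. -/
theorem result (p : ℝ) (hp : 0 < p) :
    (∀ n : ℕ, 1 ≤ n → ∀ K : Set (Fin n → ℝ), Body K →
      (volRatio K / volRatio (simplex n)) ^ (1 + 1 / p) * ENNReal.ofReal (const n p) ≤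
        mahlerVolume p K) ∧
    (∀ n : ℕ, 1 ≤ n → ENNReal.ofReal (const n p) ≤ simplexInf n p) ∧
    (∀ δ : ℝ, 0 < δ → δ < 1 → ∃ n₀ : ℕ, ∀ n : ℕ, n₀ ≤ n →
      ENNReal.ofReal ((1 - δ) ^ n) * simplexInf n p ≤ ENNReal.ofReal (const n p)) :=
  ⟨fun _ hn _ hK => Pool.Agent.K9h11.VR.vr_main hn hK hp,
    fun _ hn => Pool.Agent.K9h11.VR.An_le hn hp,
    fun _ hδ hδ1 => Pool.Agent.K9h11.JN.II_An hp hδ hδ1⟩

end Pool.Agent.Results.MP_5f4cdd_gt.VolumeRatio
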